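import Pool.Agent.H13.EDM.TargetsB
import Pool.Agent.H35.EDM.NUM

/-!
# Row NM2 of the board on mixed degrees: the choice of the scale, uniform in the constants
-/

set_option autoImplicit false

open Filter Topology
open Pool.Agent.H13.EDM
open Pool.Agent.H35.EDM (ev_pow ev_eps)

namespace Pool.Agent.H1.EDM

theorem pf_NM2 (h1 : T_NU1) (h2 : T_NU2) (h3 : T_NU3) : T_NM2 := by
  intro N δ w C D η μ μ' s hN hC hD hη hδ hδ0 hlc hsub hw hlow hμ'0 hμμ' hs1 hsμ hδ3 hinf
  have hC0 : 0 < C := by linarith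
  obtain ⟨x, hx0, hxl, hxu⟩ := h1 (δ 1) C η hC0 hη (hδ 1 (by omega)) (hsub 1 (by omega))
    (hlow 1 (by omega))
  obtain ⟨y, hy0, hyl, hyu⟩ := h1 (δ 2) C η hC0 hη (hδ 2 (by omega)) (hsub 2 (by omega))
    (hlow 2 (by omega))
  -- `μ ≤ x`
  have hμx : μ ≤ x := by
    by_contra hcon
    push Not at hcon
    obtain ⟨ε, he1, he0⟩ := ((ev_eps x μ 1 hcon).and self_mem_nhdsWithin).exists
    rw [pow_one] at he1
    have he0' : 0 < ε := he0
    obtain ⟨ma, hma⟩ := hxu ε he0'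
    obtain ⟨mb, hmb⟩ := eventually_atTop.1 (ev_pow (2 * C) (x * (1 + ε)) μ (by positivity) he1)
    obtain ⟨m, hm, hmm⟩ := hinf (max ma mb)
    have e1 := hma m ((le_max_left _ _).trans hm)
    have e2 := hmb m ((le_max_right _ _).trans hm)
    have e3 : C * δ 1 m ≤ C * (x * (1 + ε)) ^ m := mul_le_mul_of_nonneg_left e1 hC0.le
    have e4 : 0 < (x * (1 + ε)) ^ m := by positivity
    nlinarith [mul_pos hC0 e4]
  have hs0 : 0 < s := by linarith
  have hsx : s < x := by linarith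
  have hμ'x : μ' < x := by linarith
  have hx1 : 1 < x := by linarith
  -- the first claim
  have hfirst : ∀ (c L : ℝ), 0 < c → c * s < x → ∀ᶠ m : ℕ in atTop,
      L * (c * s) ^ m ≤ δ 1 m := by
    intro c L hc hcs
    filter_upwards [ev_pow (C * |L|) (c * s) x (by positivity) hcs] with m hm
    have g1 : C * (|L| * (c * s) ^ m) ≤ C * δ 1 m := by
      refine le_trans (le_of_eq ?_) (hm.trans (hxl m))
      ring
    have g2 := le_of_mul_le_mul_left g1 hC0
    refine le_trans ?_ g2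
    exact mul_le_mul_of_nonneg_right (le_abs_self L) (by positivity)
  by_cases hcase : s * y < x ^ 2
  · -- case A
    have hsy : s * y / x < x := by
      rw [div_lt_iff₀ hx0]
      nlinarith
    obtain ⟨t, ht⟩ : ∃ t, t = (max (max s μ') (s * y / x) + x) / 2 := ⟨_, rfl⟩
    have hmax : max (max s μ') (s * y / x) < x := max_lt (max_lt hsx hμ'x) hsy
    have ht1 : max (max s μ') (s * y / x) < t := by rw [ht]; linarith
    have htx : t < x := by rw [ht]; linarith
    have hts : s < t := lt_of_le_of_lt ((le_max_left _ _).trans (le_max_left _ _)) ht1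
    have htμ : μ' < t := lt_of_le_of_lt ((le_max_right _ _).trans (le_max_left _ _)) ht1
    have hty : s * y / x < t := lt_of_le_of_lt (le_max_right _ _) ht1
    obtain ⟨c, hc⟩ : ∃ c, c = t / s := ⟨_, rfl⟩
    have hcs : c * s = t := by rw [hc]; field_simp
    have hc1 : 1 < c := by
      rw [hc, lt_div_iff₀ hs0]
      linarith
    have hc0 : 0 < c := by linarith
    have hcx : c < x := by
      have : c ≤ c * s := le_mul_of_one_le_right hc0.le hs1
      linarith
    have hyc : y < x * c := by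
      rw [div_lt_iff₀ hx0, ← hcs] at hty
      have g1 : s * y < s * (x * c) := by linarith [show c * s * x = s * (x * c) by ring]
      exact lt_of_mul_lt_mul_left g1 hs0.le
    refine ⟨c, hc1, by rw [hcs]; exact htμ, fun Λ L hΛ => ?_⟩
    rw [← eventually_atTop (p := fun m => L * (c * s) ^ m ≤ δ 1 m ∧ ∃ (i l₀ : ℕ) (ρ : ℝ),
      1 ≤ i ∧ i ≤ 2 ∧ 1 ≤ l₀ ∧ 0 < ρ ∧
      Λ * (∑ j ∈ Finset.range N, (l₀ : ℝ) ^ (N - 1 - j) * w j m) * ρ ≤
        δ i (m + m) * (l₀ : ℝ) ^ (N - i) ∧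
      8 * (l₀ : ℝ) ≤ ρ * c ^ m ∧ 2 * c ^ m ≤ ρ)]
    obtain ⟨K, hK0, hK⟩ := h2 N C D hC hD hN
    obtain ⟨ε, ⟨he1, he2⟩, he0⟩ := (((ev_eps c x 1 hcx).and
      (ev_eps y (x * c) 2 hyc)).and self_mem_nhdsWithin).exists
    have he0' : 0 < ε := he0
    rw [pow_one] at he1
    obtain ⟨a, ha⟩ : ∃ a, a = x / (1 + ε) := ⟨_, rfl⟩
    have ha0 : 0 < a := by rw [ha]; positivity
    have hac : c < a := by
      rw [ha, lt_div_iff₀ (by positivity)]
      exact he1
    have hya : y * (1 + ε) < a * c := by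
      rw [ha, div_mul_eq_mul_div, lt_div_iff₀ (by positivity)]
      calc y * (1 + ε) * (1 + ε) = y * (1 + ε) ^ 2 := by ring
        _ < x * c := he2
    have hax2 : a * (x * (1 + ε)) = x ^ 2 := by
      rw [ha]
      field_simp
    have ha2 : 1 < a * c := by nlinarith
    obtain ⟨c₁, hc₁⟩ : ∃ c₁, c₁ = 1 / (C * Λ * K) := ⟨_, rfl⟩
    have hc₁0 : 0 < c₁ := by
      rw [hc₁]
      positivity
    filter_upwards [eventually_atTop.2 (hxu ε he0'), eventually_atTop.2 (hyu ε he0'),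
      ev_pow (2 / c₁) c a hc0.le hac,
      ev_pow (16 * K / c₁) (y * (1 + ε)) (a * c) (by positivity) hya,
      ev_pow (32 / c₁) 1 (a * c) zero_le_one ha2,
      hfirst c L hc0 (by rw [hcs]; exact htx)] with m e1 e2 e3 e4 e5 e6
    refine ⟨e6, ?_⟩
    have hA := hδ 1 (by omega) m
    have hB := hδ 1 (by omega) (m + m)
    have hE := hδ 2 (by omega) m
    have ham : 0 < a ^ m := by positivity
    obtain ⟨l₀, hl₀⟩ : ∃ l₀ : ℕ, l₀ = ⌈K * δ 2 m⌉₊ + 1 := ⟨_, rfl⟩
    have hl1 : K * δ 2 m ≤ (l₀ : ℝ) := by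
      rw [hl₀]
      push_cast
      linarith [Nat.le_ceil (K * δ 2 m)]
    have hl2 : (l₀ : ℝ) ≤ K * δ 2 m + 2 := by
      rw [hl₀]
      push_cast
      have := Nat.ceil_lt_add_one (show 0 ≤ K * δ 2 m by positivity)
      linarith
    have hl3 : 1 ≤ l₀ := by omega
    obtain ⟨ρ, hρ⟩ : ∃ ρ, ρ = δ 1 (m + m) / (Λ * K * δ 1 m) := ⟨_, rfl⟩
    have hρlow : c₁ * a ^ m ≤ ρ := by
      rw [hρ, le_div_iff₀ (by positivity)]
      have g2 : a ^ m * δ 1 m ≤ C * δ 1 (m + m) := by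
        calc a ^ m * δ 1 m ≤ a ^ m * (x * (1 + ε)) ^ m :=
              mul_le_mul_of_nonneg_left e1 ham.le
          _ = x ^ (m + m) := by
              rw [← mul_pow, hax2, ← pow_mul, two_mul]
          _ ≤ C * δ 1 (m + m) := hxl (m + m)
      calc c₁ * a ^ m * (Λ * K * δ 1 m) = c₁ * (Λ * K) * (a ^ m * δ 1 m) := by ring
        _ ≤ c₁ * (Λ * K) * (C * δ 1 (m + m)) :=
            mul_le_mul_of_nonneg_left g2 (by positivity)
        _ = δ 1 (m + m) := by rw [hc₁]; field_simp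
    have hρ0 : 0 < ρ := lt_of_lt_of_le (by positivity) hρlow
    refine ⟨1, l₀, ρ, le_rfl, by norm_num, hl3, hρ0, ?_, ?_, ?_⟩
    · have g1 := hK (fun j => δ j m) (fun j => w j m) (l₀ : ℝ) (fun j hj => hδ j hj m) (hδ0 m)
        (fun j hj => hlc j m hj) (fun j hj => hw j hj m) hl1 (by exact_mod_cast hl3)
      have g2 : ρ * (Λ * K * δ 1 m) ≤ δ 1 (m + m) := by
        rw [hρ]
        exact (div_mul_cancel₀ _ (by positivity)).le
      have g3 : 0 ≤ (l₀ : ℝ) ^ (N - 1) := by positivity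
      calc Λ * (∑ j ∈ Finset.range N, (l₀ : ℝ) ^ (N - 1 - j) * w j m) * ρ
          ≤ Λ * (K * ((l₀ : ℝ) ^ (N - 1) * δ 1 m)) * ρ :=
            mul_le_mul_of_nonneg_right (mul_le_mul_of_nonneg_left g1 hΛ.le) hρ0.le
        _ = (ρ * (Λ * K * δ 1 m)) * (l₀ : ℝ) ^ (N - 1) := by ring
        _ ≤ δ 1 (m + m) * (l₀ : ℝ) ^ (N - 1) := mul_le_mul_of_nonneg_right g2 g3
    · have g1 : c₁ * (a * c) ^ m ≤ ρ * c ^ m := by
        rw [mul_pow, ← mul_assoc]
        exact mul_le_mul_of_nonneg_right hρlow (by positivity)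
      have g3 : 8 * (K * (y * (1 + ε)) ^ m) ≤ c₁ / 2 * (a * c) ^ m := by
        have := mul_le_mul_of_nonneg_left e4 (show 0 ≤ c₁ / 2 by positivity)
        refine le_trans (le_of_eq ?_) this
        field_simp
        ring
      have g4 : 16 ≤ c₁ / 2 * (a * c) ^ m := by
        have := mul_le_mul_of_nonneg_left e5 (show 0 ≤ c₁ / 2 by positivity)
        refine le_trans (le_of_eq ?_) this
        rw [one_pow]
        field_simp
        ring
      have g5 : K * δ 2 m ≤ K * (y * (1 + ε)) ^ m := mul_le_mul_of_nonneg_left e2 hK0.le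
      linarith
    · refine le_trans ?_ hρlow
      have := mul_le_mul_of_nonneg_left e3 hc₁0.le
      refine le_trans (le_of_eq ?_) this
      field_simp
  · -- case B
    push Not at hcase
    obtain ⟨t, ht⟩ : ∃ t, t = (max s μ' + x) / 2 := ⟨_, rfl⟩
    have hmax : max s μ' < x := max_lt hsx hμ'x
    have ht1 : max s μ' < t := by rw [ht]; linarith
    have htx : t < x := by rw [ht]; linarith
    have hts : s < t := lt_of_le_of_lt (le_max_left _ _) ht1
    have htμ : μ' < t := lt_of_le_of_lt (le_max_right _ _) ht1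
    obtain ⟨c, hc⟩ : ∃ c, c = t / s := ⟨_, rfl⟩
    have hcs : c * s = t := by rw [hc]; field_simp
    have hc1 : 1 < c := by
      rw [hc, lt_div_iff₀ hs0]
      linarith
    have hc0 : 0 < c := by linarith
    have hy1 : 1 < y := by
      have g1 : s * x < s * y := by
        have : s * x < x ^ 2 := by nlinarith
        linarith
      have g2 := lt_of_mul_lt_mul_left g1 hs0.le
      linarith
    refine ⟨c, hc1, by rw [hcs]; exact htμ, fun Λ L hΛ => ?_⟩
    rw [← eventually_atTop (p := fun m => L * (c * s) ^ m ≤ δ 1 m ∧ ∃ (i l₀ : ℕ) (ρ : ℝ),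
      1 ≤ i ∧ i ≤ 2 ∧ 1 ≤ l₀ ∧ 0 < ρ ∧
      Λ * (∑ j ∈ Finset.range N, (l₀ : ℝ) ^ (N - 1 - j) * w j m) * ρ ≤
        δ i (m + m) * (l₀ : ℝ) ^ (N - i) ∧
      8 * (l₀ : ℝ) ≤ ρ * c ^ m ∧ 2 * c ^ m ≤ ρ)]
    obtain ⟨K, hK0, hK⟩ := h3 N C D hC hD hN
    obtain ⟨ε, he1, he0⟩ := ((ev_eps (c * s) x 2 (by rw [hcs]; exact htx)).and
      self_mem_nhdsWithin).exists
    have he0' : 0 < ε := he0
    obtain ⟨a, ha⟩ : ∃ a, a = x / (s * (1 + ε) ^ 2) := ⟨_, rfl⟩
    have ha0 : 0 < a := by rw [ha]; positivity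
    have hac : c < a := by
      rw [ha, lt_div_iff₀ (by positivity)]
      calc c * (s * (1 + ε) ^ 2) = c * s * (1 + ε) ^ 2 := by ring
        _ < x := he1
    have hax2 : a * ((x * (1 + ε)) * (y * (1 + ε))) ≤ y ^ 2 := by
      have g1 : a * ((x * (1 + ε)) * (y * (1 + ε))) = x ^ 2 * y / s := by
        rw [ha]
        field_simp
      rw [g1, div_le_iff₀ hs0]
      have g2 := mul_le_mul_of_nonneg_right hcase hy0.le
      calc x ^ 2 * y ≤ s * y * y := g2
        _ = y ^ 2 * s := by ring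
    have ha2 : 1 < a * c := by nlinarith
    obtain ⟨c₁, hc₁⟩ : ∃ c₁, c₁ = 1 / (C * Λ * K) := ⟨_, rfl⟩
    have hc₁0 : 0 < c₁ := by
      rw [hc₁]
      positivity
    filter_upwards [eventually_atTop.2 (hxu ε he0'), eventually_atTop.2 (hyu ε he0'),
      ev_pow (2 / c₁) c a hc0.le hac,
      ev_pow (8 / c₁) 1 (a * c) zero_le_one ha2,
      ev_pow (C * D) 1 y zero_le_one hy1,
      ev_pow (C * C) μ' x hμ'0 (by linarith),
      hfirst c L hc0 (by rw [hcs]; exact htx)] with m e1 e2 e3 e4 e5 e6 e7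
    refine ⟨e7, ?_⟩
    have hA := hδ 1 (by omega) m
    have hB := hδ 2 (by omega) (m + m)
    have hE := hδ 2 (by omega) m
    have ham : 0 < a ^ m := by positivity
    obtain ⟨ρ, hρ⟩ : ∃ ρ, ρ = δ 2 (m + m) / (Λ * K * (δ 1 m * δ 2 m)) := ⟨_, rfl⟩
    have hρlow : c₁ * a ^ m ≤ ρ := by
      rw [hρ, le_div_iff₀ (by positivity)]
      have g2 : a ^ m * (δ 1 m * δ 2 m) ≤ C * δ 2 (m + m) := by
        calc a ^ m * (δ 1 m * δ 2 m) ≤ a ^ m * ((x * (1 + ε)) ^ m * (y * (1 + ε)) ^ m) :=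
              mul_le_mul_of_nonneg_left (mul_le_mul e1 e2 hE.le (by positivity)) ham.le
          _ = (a * ((x * (1 + ε)) * (y * (1 + ε)))) ^ m := by
              rw [← mul_pow, ← mul_pow]
          _ ≤ (y ^ 2) ^ m := pow_le_pow_left₀ (by positivity) hax2 m
          _ = y ^ (m + m) := by rw [← pow_mul, two_mul]
          _ ≤ C * δ 2 (m + m) := hyl (m + m)
      calc c₁ * a ^ m * (Λ * K * (δ 1 m * δ 2 m)) =
            c₁ * (Λ * K) * (a ^ m * (δ 1 m * δ 2 m)) := by ring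
        _ ≤ c₁ * (Λ * K) * (C * δ 2 (m + m)) :=
            mul_le_mul_of_nonneg_left g2 (by positivity)
        _ = δ 2 (m + m) := by rw [hc₁]; field_simp
    have hρ0 : 0 < ρ := lt_of_lt_of_le (by positivity) hρlow
    refine ⟨2, 1, ρ, by norm_num, le_rfl, le_rfl, hρ0, ?_, ?_, ?_⟩
    · have hD2 : D ≤ δ 2 m := by
        rw [one_pow, mul_one] at e5
        have := e5.trans (hyl m)
        exact le_of_mul_le_mul_left this hC0
      have h31 : δ 3 m ≤ δ 1 m := by
        have g1 : C * (C * μ' ^ m) ≤ C * δ 1 m := by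
          refine le_trans (le_of_eq ?_) (e6.trans (hxl m))
          ring
        exact (hδ3 m).trans (le_of_mul_le_mul_left g1 hC0)
      have g1 := hK (fun j => δ j m) (fun j => w j m) (fun j hj => hδ j hj m) (hδ0 m)
        (fun j hj => hlc j m hj) (fun j hj => hw j hj m) hD2 h31
      have g2 : ρ * (Λ * K * (δ 1 m * δ 2 m)) ≤ δ 2 (m + m) := by
        rw [hρ]
        exact (div_mul_cancel₀ _ (by positivity)).le
      simp only [Nat.cast_one, one_pow, one_mul, mul_one]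
      calc Λ * (∑ j ∈ Finset.range N, w j m) * ρ ≤ Λ * (K * (δ 1 m * δ 2 m)) * ρ :=
            mul_le_mul_of_nonneg_right (mul_le_mul_of_nonneg_left g1 hΛ.le) hρ0.le
        _ = ρ * (Λ * K * (δ 1 m * δ 2 m)) := by ring
        _ ≤ δ 2 (m + m) := g2
    · have g1 : c₁ * (a * c) ^ m ≤ ρ * c ^ m := by
        rw [mul_pow, ← mul_assoc]
        exact mul_le_mul_of_nonneg_right hρlow (by positivity)
      have g4 : 8 ≤ c₁ * (a * c) ^ m := by
        have := mul_le_mul_of_nonneg_left e4 hc₁0.le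
        refine le_trans (le_of_eq ?_) this
        rw [one_pow]
        field_simp
      push_cast
      linarith
    · refine le_trans ?_ hρlow
      have := mul_le_mul_of_nonneg_left e3 hc₁0.le
      refine le_trans (le_of_eq ?_) this
      field_simp

end Pool.Agent.H1.EDM
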